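import Pool.Agent.Helper8.HB.Theta
import Pool.Agent.Helper59.HB.LemmaA

/-!
# The Larue type lemma (MP_18a08038_al, piece HB-L)
-/

namespace HB

namespace LarueAux

/-- codes of letters `L_{i,y}` with given `i` -/
def EE (i : ℕ) : Set ℕ := {n | ∃ y, enc i y = n}

/-- the subgroup generated by the letters which are not of the form `L_{i,y}` -/
def KK (i : ℕ) : Subgroup Gam := Subgroup.closure (FreeGroup.of '' (EE i)ᶜ)

theorem of_mem_KK {i n : ℕ} (h : n ∉ EE i) : FreeGroup.of n ∈ KK i :=
  Subgroup.subset_closure ⟨n, h, rfl⟩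

theorem letter_mem_KK {i j : ℕ} (h : j ≠ i) (y : X) : letter j y ∈ KK i := by
  apply of_mem_KK
  rintro ⟨y', h'⟩
  exact h (enc_inj h').1.symm

theorem lam_mem_KK {i : ℕ} {a : X} (ha : a.1 ∈ KK i) (h : a.2 ≠ i) (b : X) : lam a b ∈ KK i :=
  (KK i).mul_mem ((KK i).mul_mem ha (letter_mem_KK h _)) ((KK i).inv_mem ha)

/-- points with group part in `KK 0` and nonzero index -/
def Good (y : X) : Prop := y.1 ∈ KK 0 ∧ y.2 ≠ 0

theorem good_sig {s : ℕ → X} (hs : ∀ i, Good (s i)) (n i : ℕ) : Good (sig n s i) := by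
  unfold sig
  split_ifs with h0 h1 h2
  · exact ⟨(KK 0).mul_mem (lam_mem_KK (hs n).1 (hs n).2 _) (hs (n + 2)).1, (hs (n + 2)).2⟩
  · exact hs n
  · exact hs (n + 1)
  · exact hs i

theorem good_sigInv {s : ℕ → X} (hs : ∀ i, Good (s i)) (n i : ℕ) : Good (sigInv n s i) := by
  unfold sigInv
  split_ifs with h0 h1 h2
  · exact hs (n + 1)
  · exact hs (n + 2)
  · exact ⟨(KK 0).mul_mem ((KK 0).inv_mem (lam_mem_KK (hs (n + 1)).1 (hs (n + 1)).2 _)) (hs n).1,
      (hs n).2⟩
  · exact hs i

theorem act_tau_inv (s : ℕ → X) (n : ℕ) : act s (tau n)⁻¹ = sigInv n s := by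
  have h : act (sigInv n s) (tau n) = s := by
    rw [act_tau]
    exact (sigE n).right_inv s
  calc act s (tau n)⁻¹ = act (act (sigInv n s) (tau n)) (tau n)⁻¹ := by rw [h]
    _ = sigInv n s := act_act_inv _ _

theorem good_act (g : G) : (∀ s : ℕ → X, (∀ i, Good (s i)) → ∀ i, Good (act s g i)) ∧
    ∀ s : ℕ → X, (∀ i, Good (s i)) → ∀ i, Good (act s g⁻¹ i) := by
  induction g using G_induction with
  | h1 =>
    constructor
    · intro s hs i; simpa using hs i
    · intro s hs i; simpa using hs i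
  | ht n =>
    constructor
    · intro s hs i
      rw [act_tau]; exact good_sig hs n i
    · intro s hs i
      rw [act_tau_inv]; exact good_sigInv hs n i
  | hm g h hg hh =>
    constructor
    · intro s hs i
      rw [act_mul]
      exact hh.1 _ (hg.1 s hs) i
    · intro s hs i
      rw [mul_inv_rev, act_mul]
      exact hg.2 _ (hh.2 s hs) i
  | hi g hg =>
    refine ⟨hg.2, ?_⟩
    intro s hs i
    rw [inv_inv]
    exact hg.1 s hs i

theorem good_act_sh (v : G) {i : ℕ} (hi : i ≠ 0) : Good (act gen (sh v) i) := by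
  obtain ⟨j, rfl⟩ := Nat.exists_eq_succ_of_ne_zero hi
  have h : act gen (sh v) (j + 1) = act (tl gen) v j := by
    rw [← tl_act_sh]; rfl
  rw [Nat.succ_eq_add_one, h]
  apply (good_act v).1
  intro i
  exact ⟨(KK 0).one_mem, Nat.succ_ne_zero i⟩

theorem theta_injective (g : G) : Function.Injective (theta (act gen g)) := by
  intro d d' h
  have h1 : Th g (d, 0) = Th g (d', 0) := by
    unfold Th thX
    simp only [h]
  exact congrArg Prod.fst (Th_injective g h1)

open Classical in
/-- the map on letters -/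
noncomputable def cc (i : ℕ) (F : X → X) (n : ℕ) : ℕ :=
  if h : ∃ y, enc 0 y = n then enc i (F h.choose) else n

theorem cc_enc (i : ℕ) (F : X → X) (y : X) : cc i F (enc 0 y) = enc i (F y) := by
  have h : ∃ y', enc 0 y' = enc 0 y := ⟨y, rfl⟩
  unfold cc
  rw [dif_pos h, (enc_inj h.choose_spec).2]

theorem cc_injOn (i : ℕ) {F : X → X} (hF : Function.Injective F) : Set.InjOn (cc i F) (EE 0) := by
  rintro _ ⟨y, rfl⟩ _ ⟨y', rfl⟩ h
  rw [cc_enc, cc_enc] at h
  rw [hF (enc_inj h).2]

theorem cc_mem (i : ℕ) (F : X → X) : ∀ a ∈ EE 0, cc i F a ∈ EE i := by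
  rintro _ ⟨y, rfl⟩
  rw [cc_enc]
  exact ⟨_, rfl⟩

theorem lam_gen (i : ℕ) (b : X) : lam (gen i) b = letter i b := by
  simp [lam, gen]

/-- Step 2 -/
theorem step_sh (v : G) {z B : X} (hz : z.1.toWord.head? = some (enc 0 B, true)) :
    (Th (sh v) z).1.toWord.head? = some (enc 0 (Th (sh v) B), true) := by
  have hf0 : act gen (sh v) 0 = gen 0 := act_sh_zero gen v
  have key := lemmaA (theta (act gen (sh v))) (EE 0) (EE 0) (cc 0 (Th (sh v)))
    (cc_injOn 0 (Th_injective _)) (cc_mem 0 _) ?_ ?_ (theta_injective _) z.1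
    (act gen (sh v) z.2).1 ?_ (enc 0 B) true ⟨B, rfl⟩ hz
  · rw [cc_enc] at key
    exact key
  · rintro _ ⟨y, rfl⟩
    rw [cc_enc]
    have h1 := theta_letter (act gen (sh v)) 0 y
    rw [hf0, lam_gen] at h1
    exact h1
  · intro a ha
    by_cases h : ∃ i y, enc i y = a
    · obtain ⟨i, y, rfl⟩ := h
      have hi : i ≠ 0 := by
        rintro rfl
        exact ha ⟨y, rfl⟩
      have h1 := theta_letter (act gen (sh v)) i y
      unfold letter at h1
      rw [h1]
      exact lam_mem_KK (good_act_sh v hi).1 (good_act_sh v hi).2 _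
    · have hn : ∀ i y, enc i y ≠ a := fun i y e => h ⟨i, y, e⟩
      rw [theta_junk _ hn]
      exact of_mem_KK ha
  · by_cases h : z.2 = 0
    · rw [h, hf0]
      exact (KK 0).one_mem
    · exact (good_act_sh v h).1

/-- the letter `L_{0, gen 1}` -/
def ll : Gam := letter 0 (gen 1)

theorem f0 : act gen (tau 0) 0 = (ll, 2) := by
  rw [act_tau]
  have : sig 0 gen 0 = tX (gen 0) (gen 1) (gen 2) := sig_zero 0 gen
  rw [this]
  unfold tX
  rw [lam_gen]
  simp [mulX, gen, ll]

theorem f1 : act gen (tau 0) 1 = gen 0 := by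
  rw [act_tau]
  exact sig_one 0 gen

theorem f2 : act gen (tau 0) 2 = gen 1 := by
  rw [act_tau]
  exact sig_two 0 gen

theorem f3 {i : ℕ} (hi : 2 < i) : act gen (tau 0) i = gen i := by
  rw [act_tau]
  exact sig_ne gen (by omega)

theorem ll_mem : ll ∈ KK 2 := letter_mem_KK (by decide) _

/-- the conjugated endomorphism -/
noncomputable def phi : Gam →* Gam where
  toFun g := ll⁻¹ * theta (act gen (tau 0)) g * ll
  map_one' := by simp
  map_mul' a b := by
    rw [map_mul]
    group

theorem phi_apply (g : Gam) : phi g = ll⁻¹ * theta (act gen (tau 0)) g * ll := rfl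

theorem phi_injective : Function.Injective phi := by
  intro a b h
  rw [phi_apply, phi_apply] at h
  exact theta_injective (tau 0) (mul_left_cancel (mul_right_cancel h))

theorem phi_letter_zero (y : X) :
    phi (letter 0 y) = letter 2 (mulX ll⁻¹ (Th (tau 0) y)) := by
  rw [phi_apply, theta_letter, f0]
  unfold lam
  simp only
  change ll⁻¹ * (ll * letter 2 (mulX ll⁻¹ (Th (tau 0) y)) * ll⁻¹) * ll = _
  group

theorem phi_not_mem {a : ℕ} (ha : a ∉ EE 0) : phi (FreeGroup.of a) ∈ KK 2 := by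
  rw [phi_apply]
  refine (KK 2).mul_mem ((KK 2).mul_mem ((KK 2).inv_mem ll_mem) ?_) ll_mem
  by_cases h : ∃ i y, enc i y = a
  · obtain ⟨i, y, rfl⟩ := h
    have hi : i ≠ 0 := by
      rintro rfl
      exact ha ⟨y, rfl⟩
    have h1 := theta_letter (act gen (tau 0)) i y
    unfold letter at h1
    rw [h1]
    by_cases hi1 : i = 1
    · subst hi1
      rw [f1, lam_gen]
      exact letter_mem_KK (by decide) _
    · by_cases hi2 : i = 2
      · subst hi2
        rw [f2, lam_gen]
        exact letter_mem_KK (by decide) _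
      · rw [f3 (by omega), lam_gen]
        exact letter_mem_KK hi2 _
  · have hn : ∀ i y, enc i y ≠ a := fun i y e => h ⟨i, y, e⟩
    rw [theta_junk _ hn]
    apply of_mem_KK
    rintro ⟨y, hy⟩
    exact hn _ _ hy

theorem f_fst_mem (i : ℕ) : (act gen (tau 0) i).1 ∈ KK 2 := by
  by_cases h0 : i = 0
  · subst h0
    rw [f0]; exact ll_mem
  · by_cases h1 : i = 1
    · subst h1
      rw [f1]; exact (KK 2).one_mem
    · by_cases h2 : i = 2
      · subst h2
        rw [f2]; exact (KK 2).one_mem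
      · rw [f3 (by omega)]; exact (KK 2).one_mem

/-- Step 1 -/
theorem step_tau {z B : X} (hz : z.1.toWord.head? = some (enc 0 B, true)) :
    (Th (tau 0) z).1.toWord.head? = some (enc 0 (gen 1), true) := by
  have hinj : Function.Injective fun y => mulX ll⁻¹ (Th (tau 0) y) := by
    intro y y' h
    have h2 := congrArg (mulX ll) h
    simp only [← mulX_mul, mul_inv_cancel, mulX_one] at h2
    exact Th_injective _ h2
  have key := lemmaA phi (EE 0) (EE 2) (cc 2 fun y => mulX ll⁻¹ (Th (tau 0) y))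
    (cc_injOn 2 hinj) (cc_mem 2 _) ?_ (fun a ha => phi_not_mem ha) phi_injective z.1
    (ll⁻¹ * (act gen (tau 0) z.2).1)
    ((KK 2).mul_mem ((KK 2).inv_mem ll_mem) (f_fst_mem _)) (enc 0 B) true ⟨B, rfl⟩ hz
  · rw [cc_enc] at key
    have h1 : (Th (tau 0) z).1 =
        FreeGroup.mk [(enc 0 (gen 1), true)] * (phi z.1 * (ll⁻¹ * (act gen (tau 0) z.2).1)) := by
      change theta (act gen (tau 0)) z.1 * (act gen (tau 0) z.2).1 = _
      have h2 : (FreeGroup.mk [(enc 0 (gen 1), true)] : Gam) = ll := rfl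
      rw [h2, phi_apply]
      group
    rw [h1]
    apply LA.head_mul_single
    rw [key]
    intro h
    rw [Option.some.injEq, Prod.mk.injEq] at h
    exact absurd h.2 (by decide)
  · rintro _ ⟨y, rfl⟩
    rw [cc_enc]
    exact phi_letter_zero y

/-- starting points of the induction -/
def St (z : X) : Prop := z = gen 0 ∨ ∃ B, z.1.toWord.head? = some (enc 0 B, true)

theorem St.sh {z : X} (hz : St z) (v : G) : St (Th (sh v) z) := by
  rcases hz with rfl | ⟨B, hB⟩
  · left
    rw [Th_gen, act_sh_zero]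
  · right
    exact ⟨_, step_sh v hB⟩

theorem St.tau {z : X} (hz : St z) :
    (Th (tau 0) z).1.toWord.head? = some (enc 0 (gen 1), true) := by
  rcases hz with rfl | ⟨B, hB⟩
  · rw [Th_gen, f0]
    unfold ll letter
    rw [FreeGroup.toWord_of]
    rfl
  · exact step_tau hB

theorem main {v0 w : G} (h : PosW v0 w) : ∀ z, St z →
    (Th w z).1.toWord.head? = some (enc 0 (Th (sh v0) (gen 1)), true) := by
  induction h with
  | base v1 =>
    intro z hz
    rw [Th_mul, Th_mul]
    exact step_sh v0 (hz.sh v1).tau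
  | @step w v _ ih =>
    intro z hz
    rw [Th_mul, Th_mul]
    exact ih _ (Or.inr ⟨_, (hz.sh v).tau⟩)

end LarueAux

/-- the Larue type lemma -/
theorem larue {v0 w : G} (h : PosW v0 w) :
    (act gen w 0).1.toWord.head? = some (enc 0 (act (tl gen) v0 0), true) := by
  have h1 := LarueAux.main h (gen 0) (Or.inl rfl)
  rw [Th_gen, Th_gen] at h1
  have h2 : act gen (sh v0) 1 = act (tl gen) v0 0 := by
    rw [← tl_act_sh]; rfl
  rw [h2] at h1
  exact h1

end HB
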